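import Pool.Agent.W289.CG.Fin
import Pool.Agent.NH9.PY.Fin

/-!
# The excess of the `m`-rank over the number of complex places tends to infinity with the degree
-/

set_option autoImplicit false

namespace Pool.Agent.Results.MP_176ace_nt.ExcessToInfinity

open NumberField

/-- For every `κ ≥ 1` there is `n₀` such that for every degree `n ≥ n₀`, for `r = ⌊n/2⌋` and for
`r = 0`, and for every `m ≥ 2` there are number fields of degree `n` with exactly `r` complex places
and of arbitrarily large discriminant whose class group contains `(ℤ/m)^(r+κ)`. -/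
theorem result :
    ∀ κ : ℕ, 1 ≤ κ → ∃ n₀ : ℕ, ∀ n r m : ℕ, n₀ ≤ n → (r = n / 2 ∨ r = 0) → 2 ≤ m → ∀ N : ℕ,
      ∃ (K : Type) (_ : Field K) (_ : NumberField K), Module.finrank ℚ K = n ∧
        InfinitePlace.nrComplexPlaces K = r ∧ (N : ℤ) < |discr K| ∧
        ∃ f : Multiplicative (Fin (r + κ) → ZMod m) →* ClassGroup (𝓞 K),
          Function.Injective f := by
  intro κ hκ
  obtain ⟨n₀, hn₀⟩ := Pool.Agent.NH9.PY.t_DATA κ
  refine ⟨n₀ + 2, ?_⟩
  intro n r m hn hr hm N
  have hD := hn₀ n (by omega)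
  obtain ⟨⟨K, hK1, hK2, h1, h2, h3, h4⟩, ⟨K', hK1', hK2', h1', h2', h3', h4'⟩⟩ :=
    W289.CG.main n κ (by omega) hκ hD m N hm
  rcases hr with rfl | rfl
  · refine ⟨K, hK1, hK2, h1, ?_, h3, h4⟩
    have h8 := InfinitePlace.card_add_two_mul_card_eq_rank K
    omega
  · refine ⟨K', hK1', hK2', h1', ?_, h3', ?_⟩
    · have h8 := InfinitePlace.card_add_two_mul_card_eq_rank K'
      omega
    · rw [Nat.zero_add]
      exact h4'

end Pool.Agent.Results.MP_176ace_nt.ExcessToInfinity
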